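import Mathlib
import Pool.Agent.Helper50.DimSpecZero

/-!
# The local dimension of the dimension spectrum of a CIFS can be discontinuous

We answer Q1 of the problem in the negative: there is a conformal iterated function system
(consisting of similarities of the unit interval) whose dimension spectrum has a point at which the
local Hausdorff dimension of the spectrum is not continuous along the spectrum.
-/

namespace Pool.Agent.Results.MP_906def_an.SpectrumLocalDimJump

open scoped ENNReal NNReal Topology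
open Filter

/-- `wordMap φ ω n = φ_{ω 0} ∘ ⋯ ∘ φ_{ω (n-1)}`. -/
def wordMap {E ι : Type} (φ : ι → E → E) (ω : ℕ → ι) : ℕ → E → E
  | 0 => id
  | n + 1 => wordMap φ ω n ∘ φ (ω n)

/-- A conformal iterated function system on the Euclidean space `E`, as in the problem. -/
structure CIFS (E : Type) [NormedAddCommGroup E] [InnerProductSpace ℝ E] where
  /-- the phase space: compact, connected, the closure of its interior -/
  X : Set E
  isCompact_X : IsCompact X
  isConnected_X : IsConnected X
  closure_interior_X : closure (interior X) = X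
  /-- the alphabet: countable, with at least two letters -/
  ι : Type
  countable : Countable ι
  nontrivial : Nontrivial ι
  /-- the maps, injective contractions of `X` with a common Lipschitz constant `< 1` -/
  φ : ι → E → E
  mapsTo_X : ∀ e, Set.MapsTo (φ e) X X
  injOn_X : ∀ e, Set.InjOn (φ e) X
  contraction : ∃ s : ℝ, s < 1 ∧ ∀ e, ∀ x ∈ X, ∀ y ∈ X, dist (φ e x) (φ e y) ≤ s * dist x y
  /-- open set condition -/
  openSet : ∀ a b, a ≠ b → Disjoint (φ a '' interior X) (φ b '' interior X)
  /-- all maps are `C¹` conformal diffeomorphisms of the open connected set `V ⊇ X` into `V` -/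
  V : Set E
  isOpen_V : IsOpen V
  isConnected_V : IsConnected V
  subset_V : X ⊆ V
  mapsTo_V : ∀ e, Set.MapsTo (φ e) V V
  injOn_V : ∀ e, Set.InjOn (φ e) V
  contDiffOn_V : ∀ e, ContDiffOn ℝ 1 (φ e) V
  conformal_V : ∀ e, ∀ x ∈ V, ConformalAt (φ e) x
  /-- cone condition, with angle `α` and height `l` -/
  cone : ∃ α : ℝ, 0 < α ∧ ∃ l : ℝ, 0 < l ∧ ∀ x ∈ frontier X, ∃ u : E, ‖u‖ = 1 ∧
    ∀ y : E, y ≠ x → dist y x < l → InnerProductGeometry.angle (y - x) u < α → y ∈ interior X
  /-- bounded distortion, for all finite words -/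
  distortion : ∃ K : ℝ, 1 ≤ K ∧ ∀ (ω : ℕ → ι) (n : ℕ), ∀ x ∈ V, ∀ y ∈ V,
    ‖fderiv ℝ (wordMap φ ω n) y‖ ≤ K * ‖fderiv ℝ (wordMap φ ω n) x‖

variable {E : Type} [NormedAddCommGroup E] [InnerProductSpace ℝ E]

/-- The limit set `J_F` of the subsystem `F`: all points of `⋂ₙ φ_{ω₁} ∘ ⋯ ∘ φ_{ωₙ}(X)` for infinite
words `ω` over `F`. -/
def CIFS.limitSet (S : CIFS E) (F : Set S.ι) : Set E :=
  {x | ∃ ω : ℕ → S.ι, (∀ n, ω n ∈ F) ∧ ∀ n, x ∈ wordMap S.φ ω n '' S.X}

/-- The dimension spectrum: the set of all numbers `HD(J_F)`, `F ⊆ E`. -/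
def CIFS.dimensionSpectrum (S : CIFS E) : Set ℝ :=
  {t | 0 ≤ t ∧ ∃ F : Set S.ι, dimH (S.limitSet F) = ENNReal.ofReal t}

/-- The local Hausdorff dimension of `F ⊆ ℝ` at `x`. -/
noncomputable def localDim (F : Set ℝ) (x : ℝ) : ℝ≥0∞ :=
  ⨅ ε : ℝ, ⨅ _ : 0 < ε, dimH (F ∩ Metric.ball x ε)

/-! ### The example -/

open Pool.Agent.Helper50.SelfSim Pool.Agent.Helper50.DimSpec

lemma wordMap_eq {E ι : Type} (φ : ι → E → E) (ω : ℕ → ι) (n : ℕ) : wordMap φ ω n = comp φ ω n := by
  induction n with
  | zero => rfl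
  | succ n ih =>
    change wordMap φ ω n ∘ φ (ω n) = comp φ ω n ∘ φ (ω n)
    rw [ih]

lemma wordMap_affine (ω : ℕ → Alph) (n : ℕ) :
    ∃ a b : ℝ, wordMap SS.f ω n = fun x => a * x + b := by
  induction n with
  | zero => exact ⟨1, 0, by funext x; simp [wordMap]⟩
  | succ n ih =>
    obtain ⟨a, b, h⟩ := ih
    refine ⟨a * SS.r (ω n), a * SS.b (ω n) + b, ?_⟩
    change wordMap SS.f ω n ∘ SS.f (ω n) = _
    rw [h]
    funext x
    simp only [Function.comp, Sys.f]
    ring

/-- the example as a CIFS -/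
noncomputable def exSys : CIFS ℝ where
  X := Set.Icc 0 1
  isCompact_X := isCompact_Icc
  isConnected_X := isConnected_Icc zero_le_one
  closure_interior_X := by
    rw [interior_Icc, closure_Ioo zero_ne_one]
  ι := Alph
  countable := inferInstance
  nontrivial := by
    have h : (2 : ℕ) ≤ NN 0 := by
      unfold NN
      rw [q_zero]
      norm_num
    refine ⟨⟨0, ⟨0, by omega⟩⟩, ⟨0, ⟨1, by omega⟩⟩, ?_⟩
    intro h2
    have h3 : (⟨0, by omega⟩ : Fin (NN 0)) = ⟨1, by omega⟩ := by
      have := (Sigma.mk.injEq _ _ _ _).mp h2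
      exact eq_of_heq this.2
    simp at h3
  φ := SS.f
  mapsTo_X := fun e _ hx => SS.f_mem e hx
  injOn_X := by
    intro e x _ y _ hxy
    have hr := SS.r_pos e
    simp only [Sys.f] at hxy
    have : SS.r e * (x - y) = 0 := by linarith
    rcases mul_eq_zero.mp this with h | h
    · exact absurd h hr.ne'
    · linarith
  contraction := by
    refine ⟨SS.rho, SS.rho_lt, ?_⟩
    intro e x _ y _
    have hr := SS.r_pos e
    have : SS.f e x - SS.f e y = SS.r e * (x - y) := by simp only [Sys.f]; ring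
    rw [Real.dist_eq, Real.dist_eq, this, abs_mul, abs_of_pos hr]
    exact mul_le_mul_of_nonneg_right (SS.r_le e) (abs_nonneg _)
  openSet := by
    intro a b hab
    rw [Set.disjoint_left]
    rintro _ ⟨x, hx, rfl⟩ ⟨y, hy, hxy⟩
    rw [interior_Icc] at hx hy
    have hra := SS.r_pos a
    have hrb := SS.r_pos b
    simp only [Sys.f] at hxy
    rcases disj a b hab with h | h
    · nlinarith [hx.1, hx.2, hy.1, hy.2]
    · nlinarith [hx.1, hx.2, hy.1, hy.2]
  V := Set.univ
  isOpen_V := isOpen_univ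
  isConnected_V := isConnected_univ
  subset_V := Set.subset_univ _
  mapsTo_V := fun e => Set.mapsTo_univ _ _
  injOn_V := by
    intro e x _ y _ hxy
    have hr := SS.r_pos e
    simp only [Sys.f] at hxy
    have : SS.r e * (x - y) = 0 := by linarith
    rcases mul_eq_zero.mp this with h | h
    · exact absurd h hr.ne'
    · linarith
  contDiffOn_V := by
    intro e
    have : SS.f e = fun x => SS.r e * x + SS.b e := rfl
    rw [this]
    exact ((contDiff_const.mul contDiff_id).add contDiff_const).contDiffOn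
  conformal_V := by
    intro e x _
    have h1 : HasDerivAt (SS.f e) (SS.r e) x := by
      have : SS.f e = fun x => SS.r e * x + SS.b e := rfl
      rw [this]
      simpa using ((hasDerivAt_id x).const_mul (SS.r e)).add_const (SS.b e)
    refine ⟨_, h1.hasFDerivAt, ?_⟩
    refine ⟨SS.r e, (SS.r_pos e).ne', LinearIsometry.id, ?_⟩
    ext
    simp
  cone := by
    refine ⟨1, one_pos, 1 / 2, by norm_num, ?_⟩
    intro x hx
    rw [frontier_Icc zero_le_one] at hx
    have hpi : (1 : ℝ) < Real.pi := by linarith [Real.pi_gt_three]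
    rcases hx with rfl | hx
    · refine ⟨1, by simp, ?_⟩
      intro y hy hd ha
      rw [interior_Icc]
      rw [Real.dist_eq, sub_zero, abs_lt] at hd
      refine ⟨?_, by linarith [hd.2]⟩
      by_contra hcon
      push Not at hcon
      have hy2 : y < 0 := lt_of_le_of_ne hcon hy
      have h3 : InnerProductGeometry.angle (y - 0) 1 = Real.pi := by
        rw [InnerProductGeometry.angle_eq_pi_iff]
        refine ⟨by simpa using hy, 1 / y, one_div_neg.mpr hy2, ?_⟩
        rw [sub_zero, smul_eq_mul, one_div, inv_mul_cancel₀ hy]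
      rw [h3] at ha
      linarith
    · rw [Set.mem_singleton_iff] at hx
      subst hx
      refine ⟨-1, by simp, ?_⟩
      intro y hy hd ha
      rw [interior_Icc]
      rw [Real.dist_eq, abs_lt] at hd
      refine ⟨by linarith [hd.1], ?_⟩
      by_contra hcon
      push Not at hcon
      have hy2 : 0 < y - 1 := by
        have : (1 : ℝ) < y := lt_of_le_of_ne hcon (Ne.symm hy)
        linarith
      have h3 : InnerProductGeometry.angle (y - 1) (-1) = Real.pi := by
        rw [InnerProductGeometry.angle_eq_pi_iff]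
        refine ⟨hy2.ne', -1 / (y - 1), div_neg_of_neg_of_pos (by norm_num) hy2, ?_⟩
        rw [smul_eq_mul, div_mul_cancel₀ _ hy2.ne']
      rw [h3] at ha
      linarith
  distortion := by
    refine ⟨1, le_rfl, ?_⟩
    intro ω n x _ y _
    obtain ⟨a, b, h⟩ := wordMap_affine ω n
    rw [h, one_mul]
    apply le_of_eq
    have h1 : ∀ z : ℝ, HasDerivAt (fun x : ℝ => a * x + b) a z := by
      intro z
      simpa using ((hasDerivAt_id z).const_mul a).add_const b
    rw [(h1 x).hasFDerivAt.fderiv, (h1 y).hasFDerivAt.fderiv]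

lemma limitSet_eq (F : Set Alph) : exSys.limitSet F = SS.J F := by
  unfold CIFS.limitSet Sys.J
  ext x
  constructor
  · rintro ⟨ω, h1, h2⟩
    refine ⟨ω, h1, fun n => ?_⟩
    have h3 := h2 n
    have h4 : wordMap exSys.φ ω n = comp SS.f ω n := wordMap_eq SS.f ω n
    rw [h4] at h3
    exact h3
  · rintro ⟨ω, h1, h2⟩
    refine ⟨ω, h1, fun n => ?_⟩
    have h3 := h2 n
    have h4 : wordMap SS.f ω n = comp SS.f ω n := wordMap_eq SS.f ω n
    rw [← h4] at h3
    exact h3

lemma spectrum_eq : exSys.dimensionSpectrum = Spec := by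
  unfold CIFS.dimensionSpectrum Spec
  ext t
  constructor
  · rintro ⟨h1, F, h2⟩
    exact ⟨h1, F, (congrArg dimH (limitSet_eq F)).symm.trans h2⟩
  · rintro ⟨h1, F, h2⟩
    exact ⟨h1, F, (congrArg dimH (limitSet_eq F)).trans h2⟩

lemma localDim_half : 1 ≤ localDim Spec (1 / 2) := by
  unfold localDim
  refine le_iInf fun ε => le_iInf fun hε => ?_
  have h1 : Set.Ioo (max 0 (1 / 2 - ε)) (1 / 2) ⊆ Spec ∩ Metric.ball (1 / 2) ε := by
    intro x hx
    have hx1 := (max_lt_iff.mp hx.1).1
    have hx2 := (max_lt_iff.mp hx.1).2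
    refine ⟨mem_spec_of_le x hx1 hx.2.le, ?_⟩
    rw [Metric.mem_ball, Real.dist_eq, abs_lt]
    constructor <;> linarith [hx.2]
  have h2 : dimH (Set.Ioo (max 0 (1 / 2 - ε)) (1 / 2 : ℝ)) = 1 := by
    have := Real.dimH_of_nonempty_interior (E := ℝ) (s := Set.Ioo (max 0 (1 / 2 - ε)) (1 / 2 : ℝ))
      (by
        rw [interior_Ioo]
        exact Set.nonempty_Ioo.mpr (max_lt (by norm_num) (by linarith)))
    simpa using this
  rw [← h2]
  exact dimH_mono h1

lemma localDim_above (x : ℝ) (hx : 1 / 2 < x) : localDim Spec x = 0 := by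
  apply le_antisymm _ bot_le
  unfold localDim
  refine (iInf₂_le ((x - 1 / 2) / 2) (by linarith)).trans ?_
  refine le_trans ?_ (dim_above ((x - 1 / 2) / 2) (by linarith)).le
  apply dimH_mono
  rintro y ⟨h1, h2⟩
  refine ⟨h1, ?_⟩
  rw [Metric.mem_ball, Real.dist_eq, abs_lt] at h2
  rw [Set.mem_Ici]
  linarith [h2.1]

/-- **Negative answer to Q1.** There is a conformal iterated function system (on the line, `d = 1`)
whose dimension spectrum `F` contains a point at which the local Hausdorff dimension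
`x ↦ dim_x(F)` is not continuous along `F`. -/
theorem result : ∃ S : CIFS ℝ, ∃ x ∈ S.dimensionSpectrum,
    ¬ ContinuousWithinAt (localDim S.dimensionSpectrum) S.dimensionSpectrum x := by
  refine ⟨exSys, 1 / 2, ?_, ?_⟩
  · rw [spectrum_eq]
    exact mem_spec_of_le (1 / 2) (by norm_num) le_rfl
  · rw [spectrum_eq]
    intro hcont
    have h1 : ∀ᶠ y in 𝓝[Spec] (1 / 2 : ℝ), 0 < localDim Spec y := by
      apply hcont.eventually
      exact lt_mem_nhds (lt_of_lt_of_le one_pos localDim_half)
    rw [eventually_nhdsWithin_iff, Metric.eventually_nhds_iff] at h1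
    obtain ⟨ε, hε, h2⟩ := h1
    obtain ⟨s, hs1, hs2, hs3⟩ := exists_above ε hε
    have h3 := h2 (y := s) (by rw [Real.dist_eq, abs_lt]; constructor <;> linarith) hs1
    rw [localDim_above s hs2] at h3
    exact lt_irrefl _ h3

end Pool.Agent.Results.MP_906def_an.SpectrumLocalDimJump
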